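import Pool.Agent.Helper58.FX.Defs

set_option autoImplicit false
open MeasureTheory Filter Topology
open scoped InnerProductSpace ComplexConjugate

/-! Joint eigenspaces of two isometries: Bessel inequality and approximation. -/

namespace Helper65.FX

open Helper58.FX

variable {H : Type*} [NormedAddCommGroup H] [InnerProductSpace ℂ H] [CompleteSpace H]
variable {U V : H →ₗᵢ[ℂ] H}

omit [CompleteSpace H] in
lemma norm_one_of_mem {α β : ℂ} {v : H} (hv : v ∈ Eg U V α β) (h0 : v ≠ 0) :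
    ‖α‖ = 1 ∧ ‖β‖ = 1 := by
  have hn : ‖v‖ ≠ 0 := norm_ne_zero_iff.mpr h0
  obtain ⟨h1, h2⟩ := mem_Eg.mp hv
  have e1 : ‖U v‖ = ‖α • v‖ := by rw [h1]
  have e2 : ‖V v‖ = ‖β • v‖ := by rw [h2]
  rw [U.norm_map, norm_smul] at e1
  rw [V.norm_map, norm_smul] at e2
  constructor
  · have : (1 - ‖α‖) * ‖v‖ = 0 := by linarith
    rcases mul_eq_zero.mp this with h | h
    · linarith
    · exact absurd h hn
  · have : (1 - ‖β‖) * ‖v‖ = 0 := by linarith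
    rcases mul_eq_zero.mp this with h | h
    · linarith
    · exact absurd h hn

omit [CompleteSpace H] in
lemma eq_of_conj_mul {a a' : ℂ} (h : ‖a‖ = 1) (h' : conj a * a' = 1) : a' = a := by
  have e : a * conj a = 1 := by
    rw [Complex.mul_conj, Complex.normSq_eq_norm_sq, h]
    norm_num
  calc a' = (a * conj a) * a' := by rw [e, one_mul]
    _ = a * (conj a * a') := by ring
    _ = a := by rw [h', mul_one]

omit [CompleteSpace H] in
lemma orth {α β α' β' : ℂ} (hne : (α, β) ≠ (α', β')) {v w : H} (hv : v ∈ Eg U V α β)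
    (hw : w ∈ Eg U V α' β') : ⟪v, w⟫_ℂ = 0 := by
  by_cases h0 : v = 0
  · rw [h0, inner_zero_left]
  by_contra hc
  obtain ⟨hα, hβ⟩ := norm_one_of_mem hv h0
  obtain ⟨h1, h2⟩ := mem_Eg.mp hv
  obtain ⟨h3, h4⟩ := mem_Eg.mp hw
  have e1 : ⟪U v, U w⟫_ℂ = ⟪v, w⟫_ℂ := U.inner_map_map v w
  have e2 : ⟪V v, V w⟫_ℂ = ⟪v, w⟫_ℂ := V.inner_map_map v w
  rw [h1, h3, inner_smul_left, inner_smul_right] at e1
  rw [h2, h4, inner_smul_left, inner_smul_right] at e2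
  have f1 : conj α * α' = 1 := by
    have : (conj α * α' - 1) * ⟪v, w⟫_ℂ = 0 := by linear_combination e1
    rcases mul_eq_zero.mp this with h | h
    · linear_combination h
    · exact absurd h hc
  have f2 : conj β * β' = 1 := by
    have : (conj β * β' - 1) * ⟪v, w⟫_ℂ = 0 := by linear_combination e2
    rcases mul_eq_zero.mp this with h | h
    · linear_combination h
    · exact absurd h hc
  exact hne (by rw [eq_of_conj_mul hα f1, eq_of_conj_mul hβ f2])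

omit [CompleteSpace H] in
lemma Eg_le_Hc (α β : ℂ) : Eg U V α β ≤ Hc U V := fun _ hv =>
  Submodule.le_topologicalClosure _ (Submodule.subset_span ⟨α, β, hv⟩)

lemma PE_mem (α β : ℂ) (v : H) : PE U V α β v ∈ Eg U V α β :=
  Submodule.starProjection_apply_mem _ v

lemma PP_mem (v : H) : PP U V v ∈ Hc U V :=
  Submodule.starProjection_apply_mem _ v

/-- vectors of the compact part do not see the difference `v - PP v` -/
lemma inner_PP {y : H} (hy : y ∈ Hc U V) (v : H) : ⟪y, PP U V v⟫_ℂ = ⟪y, v⟫_ℂ := by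
  have h := Submodule.sub_starProjection_mem_orthogonal (K := Hc U V) v
  have h2 := (Submodule.mem_orthogonal _ _).mp h y hy
  rw [inner_sub_right] at h2
  exact (sub_eq_zero.mp h2).symm

lemma inner_PE {α β : ℂ} {y : H} (hy : y ∈ Eg U V α β) (v : H) :
    ⟪y, PE U V α β v⟫_ℂ = ⟪y, v⟫_ℂ := by
  have h := Submodule.sub_starProjection_mem_orthogonal (K := Eg U V α β) v
  have h2 := (Submodule.mem_orthogonal _ _).mp h y hy
  rw [inner_sub_right] at h2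
  exact (sub_eq_zero.mp h2).symm

/-- the projection onto a finite sum of joint eigenspaces -/
noncomputable def sm (U V : H →ₗᵢ[ℂ] H) (Λ : Finset (ℂ × ℂ)) (v : H) : H :=
  ∑ l ∈ Λ, PE U V l.1 l.2 v

lemma sm_mem (Λ : Finset (ℂ × ℂ)) (v : H) : sm U V Λ v ∈ Hc U V :=
  Submodule.sum_mem _ (fun l _ => Eg_le_Hc l.1 l.2 (PE_mem l.1 l.2 v))

lemma inner_sm {Λ : Finset (ℂ × ℂ)} {l : ℂ × ℂ} (hl : l ∈ Λ) {y : H}
    (hy : y ∈ Eg U V l.1 l.2) (v : H) : ⟪y, sm U V Λ v⟫_ℂ = ⟪y, v⟫_ℂ := by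
  rw [sm, inner_sum, Finset.sum_eq_single l, inner_PE hy v]
  · intro b _ hb
    exact orth (fun h => hb h.symm) hy (PE_mem b.1 b.2 v)
  · intro h
    exact absurd hl h

lemma inner_sm_self (Λ : Finset (ℂ × ℂ)) (v : H) :
    ⟪sm U V Λ v, sm U V Λ v⟫_ℂ = ⟪sm U V Λ v, v⟫_ℂ := by
  conv_lhs => rw [sm, sum_inner]
  conv_rhs => rw [sm, sum_inner]
  refine Finset.sum_congr rfl (fun l hl => ?_)
  exact inner_sm hl (PE_mem l.1 l.2 v) v

lemma norm_sm (Λ : Finset (ℂ × ℂ)) (v : H) :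
    ‖sm U V Λ v‖ ^ 2 = ∑ l ∈ Λ, ‖PE U V l.1 l.2 v‖ ^ 2 := by
  have h : ((‖sm U V Λ v‖ ^ 2 : ℝ) : ℂ) = ((∑ l ∈ Λ, ‖PE U V l.1 l.2 v‖ ^ 2 : ℝ) : ℂ) := by
    have e := inner_sm_self (U := U) (V := V) Λ v
    rw [inner_self_eq_norm_sq_to_K] at e
    push_cast
    rw [show (‖sm U V Λ v‖ : ℂ) ^ 2 = ⟪sm U V Λ v, v⟫_ℂ from e]
    conv_lhs => rw [sm, sum_inner]
    refine Finset.sum_congr rfl (fun l _ => ?_)
    rw [← inner_PE (PE_mem l.1 l.2 v) v, inner_self_eq_norm_sq_to_K]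
    rfl
  exact_mod_cast h

/-- `PP v - sm v` is orthogonal to the eigenspaces in `Λ` -/
lemma inner_diff {Λ : Finset (ℂ × ℂ)} {l : ℂ × ℂ} (hl : l ∈ Λ) {y : H}
    (hy : y ∈ Eg U V l.1 l.2) (v : H) : ⟪y, PP U V v - sm U V Λ v⟫_ℂ = 0 := by
  rw [inner_sub_right, inner_PP (Eg_le_Hc l.1 l.2 hy), inner_sm hl hy, sub_self]

lemma inner_sm_diff (Λ : Finset (ℂ × ℂ)) (v : H) :
    ⟪PP U V v - sm U V Λ v, sm U V Λ v⟫_ℂ = 0 := by
  rw [← inner_conj_symm]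
  have h0 : ∀ x : H, ⟪sm U V Λ v, x⟫_ℂ = ∑ l ∈ Λ, ⟪PE U V l.1 l.2 v, x⟫_ℂ := fun x => by
    rw [sm, sum_inner]
  have : ⟪sm U V Λ v, PP U V v - sm U V Λ v⟫_ℂ = 0 := by
    rw [h0]
    exact Finset.sum_eq_zero (fun l hl => inner_diff hl (PE_mem l.1 l.2 v) v)
  rw [this, map_zero]

omit [CompleteSpace H] in
lemma pyth {x y : H} (h : ⟪x, y⟫_ℂ = 0) : ‖x + y‖ ^ 2 = ‖x‖ ^ 2 + ‖y‖ ^ 2 := by
  have := norm_add_sq_eq_norm_sq_add_norm_sq_of_inner_eq_zero x y h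
  nlinarith [this]

lemma norm_PP_eq (Λ : Finset (ℂ × ℂ)) (v : H) :
    ‖PP U V v‖ ^ 2 = ‖PP U V v - sm U V Λ v‖ ^ 2 + ‖sm U V Λ v‖ ^ 2 := by
  have h := pyth (inner_sm_diff (U := U) (V := V) Λ v)
  rw [sub_add_cancel] at h
  exact h

/-- FX-5, Bessel inequality -/
theorem bessel_PE (v : H) (Λ : Finset (ℂ × ℂ)) :
    ∑ l ∈ Λ, ‖PE U V l.1 l.2 v‖ ^ 2 ≤ ‖PP U V v‖ ^ 2 := by
  rw [← norm_sm, norm_PP_eq Λ v]
  have := sq_nonneg ‖PP U V v - sm U V Λ v‖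
  linarith

omit [CompleteSpace H] in
lemma span_good {w : H} (hw : w ∈ Submodule.span ℂ {v | ∃ α β : ℂ, v ∈ Eg U V α β}) :
    ∃ Λ : Finset (ℂ × ℂ), (∀ l ∈ Λ, ‖l.1‖ = 1 ∧ ‖l.2‖ = 1) ∧
      ∀ x : H, (∀ l ∈ Λ, ∀ y ∈ Eg U V l.1 l.2, ⟪y, x⟫_ℂ = 0) → ⟪w, x⟫_ℂ = 0 := by
  classical
  induction hw using Submodule.span_induction with
  | mem w hw =>
    obtain ⟨α, β, h⟩ := hw
    by_cases h0 : w = 0
    · exact ⟨∅, fun l hl => absurd hl (Finset.notMem_empty l), fun x _ => by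
        rw [h0, inner_zero_left]⟩
    · refine ⟨{(α, β)}, fun l hl => ?_, fun x hx => ?_⟩
      · rw [Finset.mem_singleton.mp hl]
        exact norm_one_of_mem h h0
      · exact hx (α, β) (Finset.mem_singleton_self _) w h
  | zero => exact ⟨∅, fun l hl => absurd hl (Finset.notMem_empty l), fun x _ => inner_zero_left x⟩
  | add a b _ _ ha hb =>
    obtain ⟨A, hA, hA2⟩ := ha
    obtain ⟨B, hB, hB2⟩ := hb
    refine ⟨A ∪ B, fun l hl => ?_, fun x hx => ?_⟩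
    · rcases Finset.mem_union.mp hl with h | h
      · exact hA l h
      · exact hB l h
    · rw [inner_add_left, hA2 x (fun l hl => hx l (Finset.mem_union_left _ hl)),
        hB2 x (fun l hl => hx l (Finset.mem_union_right _ hl)), add_zero]
  | smul c a _ ha =>
    obtain ⟨A, hA, hA2⟩ := ha
    exact ⟨A, hA, fun x hx => by rw [inner_smul_left, hA2 x hx, mul_zero]⟩

/-- FX-5, approximation -/
theorem approx_PE (v : H) {δ : ℝ} (hδ : 0 < δ) :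
    ∃ Λ : Finset (ℂ × ℂ), (∀ l ∈ Λ, ‖l.1‖ = 1 ∧ ‖l.2‖ = 1) ∧
      ‖PP U V v‖ ^ 2 - δ ≤ ∑ l ∈ Λ, ‖PE U V l.1 l.2 v‖ ^ 2 := by
  have hm : PP U V v ∈ closure ((Submodule.span ℂ {v | ∃ α β : ℂ, v ∈ Eg U V α β} : Submodule ℂ H) :
      Set H) := by
    have h := PP_mem (U := U) (V := V) v
    rw [Hc] at h
    exact h
  obtain ⟨w, hw, hd⟩ := Metric.mem_closure_iff.mp hm (Real.sqrt δ) (Real.sqrt_pos.mpr hδ)
  obtain ⟨Λ, h1, h2⟩ := span_good hw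
  refine ⟨Λ, h1, ?_⟩
  rw [← norm_sm, norm_PP_eq Λ v]
  have hx : ∀ l ∈ Λ, ∀ y ∈ Eg U V l.1 l.2, ⟪y, PP U V v - sm U V Λ v⟫_ℂ = 0 :=
    fun l hl y hy => inner_diff hl hy v
  have hwx : ⟪PP U V v - sm U V Λ v, sm U V Λ v - w⟫_ℂ = 0 := by
    rw [inner_sub_right, inner_sm_diff, ← inner_conj_symm, h2 _ hx, map_zero, sub_zero]
  have hp := pyth hwx
  rw [sub_add_sub_cancel] at hp
  have hd2 : ‖PP U V v - w‖ ^ 2 ≤ δ := by
    rw [dist_eq_norm] at hd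
    have := Real.sq_sqrt hδ.le
    have h3 : ‖PP U V v - w‖ ^ 2 ≤ Real.sqrt δ ^ 2 := by
      gcongr
    linarith
  have := sq_nonneg ‖sm U V Λ v - w‖
  linarith

end Helper65.FX
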